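import Mathlib
import Pool.Agent.Q102.SF.WIR
import Pool.Agent.Q102.SF.GRO
import Pool.Agent.Q102.SF.Avg
import Pool.Agent.Q285.SF.WUP
import Pool.Agent.Q257.SF.SLO
import Pool.Agent.Q257.SF.INT
import Pool.Agent.Q257.SF.STA
import Pool.Agent.Q257.SF.STB
import Pool.Agent.Q24.SF.SID
import Pool.Agent.Q24.SF.AWP
import Pool.Agent.Q275.SF.WTS
import Pool.Agent.Q275.SF.AT3
import Pool.Agent.Q251.SF.WIN
import Pool.Agent.Q251.SF.AT1
import Pool.Agent.Q14.SF2.Tai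
import Pool.Agent.Q14.SF2.At2
import Pool.Agent.Q14.SF2.Sum
import Pool.Agent.Q14.SF2.Key
import Pool.Agent.Q285.SF.EXT
import Pool.Agent.Q285.SF.FUN
import Pool.Agent.Q285.SF.DIA
import Pool.Agent.Q249.SF.Fin

/-!
# MP_f612df_an, Q1: every `𝔰`-frame of a supercritical pair is strong (full positive answer)

`Rapid` is the Frechet space `𝔰` of rapidly decreasing sequences on `ℤ` with the seminorms
`sup_n (1 + |n|)^k |c_n|` (see `Pool.Agent.Q249.SF.Stm`).

* `Supercritical p q x y`: `x, y : ℤ → ℝ` are nondecreasing, `|x_n|, |y_n| → ∞` as `|n| → ∞`, and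
  for some `η < 1/2`, `|x_n|^(p-1) |x_{n+1} - x_n| ≤ η` for all but finitely many `n`; the same for
  `y` with the exponent `q - 1`.
* `IsAnalysis x y R`: `R f = ((f (x_n))_n, (𝓕 f (y_n))_n)` for all Schwartz functions `f`.

The theorem: if `R` is a topological embedding (i.e. the functionals form an `𝔰`-frame) then there
is a continuous linear left inverse `L : 𝔰 × 𝔰 → 𝓢`, and the range of `R` is the range of a
continuous linear projection of `𝔰 × 𝔰`.
-/

set_option autoImplicit false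

open Filter Topology
open scoped FourierTransform SchwartzMap

namespace Pool.Agent.Results.MP_f612df_an.StrongFrames

open Q249.SF

theorem fin : S_FIN := by
  have hWGR := Q102.SF.t_WGR
  have hWUP := Q285.SF.t_WUP
  have hSLO : S_SLO := Q257.SF.SLO.t_SLO Q102.SF.t_WAV hWUP
  have hINT : S_INT := Q257.SF.INT.t_INT Q102.SF.t_WIR hSLO
  have hSID : S_SID := Q24.SF.t_SID hINT hWGR hWUP
  have hAWP : S_AWP := Q24.SF.t_AWP Q257.SF.STA.t_STA Q257.SF.STB.t_STB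
  have hTAI : S_TAI := Q14.SF2.t_TAI hSID hAWP Q275.SF.t_WTS hWUP hWGR hSLO Q102.SF.t_GRO
  have hDIA : S_DIA := Q285.SF.t_DIA (Q285.SF.t_FUN Q285.SF.t_EXT)
  exact t_FIN Q251.SF.t_WIN Q251.SF.t_AT1 Q14.SF2.t_AT2 Q275.SF.t_AT3
    (Q14.SF2.t_KEY hTAI) hDIA Q14.SF2.t_SUM

/-- **Full positive answer to Q1.** -/
theorem result (p q : ℝ) (x y : ℤ → ℝ) (hp : 1 < p) (hq : 1 < q) (hpq : 1 / p + 1 / q = 1)
    (hs : Supercritical p q x y) (R : 𝓢(ℝ, ℂ) →ₗ[ℂ] Rapid × Rapid) (hR : IsAnalysis x y R)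
    (he : Topology.IsEmbedding R) :
    ∃ L : (Rapid × Rapid) →L[ℂ] 𝓢(ℝ, ℂ), (∀ f, L (R f) = f) ∧
      ∃ P : (Rapid × Rapid) →L[ℂ] (Rapid × Rapid), (∀ v, P (P v) = P v) ∧
        Set.range P = Set.range R := by
  obtain ⟨L, hL⟩ := fin p q x y hp hq hpq hs R hR he
  refine ⟨L, hL, (⟨R, he.continuous⟩ : 𝓢(ℝ, ℂ) →L[ℂ] Rapid × Rapid).comp L, ?_, ?_⟩
  · intro v
    change R (L (R (L v))) = R (L v)
    rw [hL]
  · ext v
    constructor
    · rintro ⟨w, rfl⟩
      exact ⟨L w, rfl⟩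
    · rintro ⟨f, rfl⟩
      exact ⟨R f, by change R (L (R f)) = R f; rw [hL]⟩

end Pool.Agent.Results.MP_f612df_an.StrongFrames
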